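import Pool.Agent.H93.EG.Targets

namespace Pool.Agent.H41.EG

open MeasureTheory Set Metric Filter Topology Pool.Agent.H93.EG
open Pool.Agent.H93.BL hiding T_B1 T_B2 T_B3 T_SB T_SC
open Pool.Agent.H93.EN

theorem nsub (a b : ℂ) : ‖a - Complex.I * b‖ ^ 2 =
    ‖a‖ ^ 2 + ‖b‖ ^ 2 + 2 * ((starRingEnd ℂ) a * b).im := by
  simp only [Complex.sq_norm, Complex.normSq_apply, Complex.sub_re, Complex.sub_im,
    Complex.mul_re, Complex.mul_im, Complex.I_re, Complex.I_im, Complex.conj_re, Complex.conj_im]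
  ring

theorem nadd (a b : ℂ) : ‖a + Complex.I * b‖ ^ 2 =
    ‖a‖ ^ 2 + ‖b‖ ^ 2 - 2 * ((starRingEnd ℂ) a * b).im := by
  simp only [Complex.sq_norm, Complex.normSq_apply, Complex.add_re, Complex.add_im,
    Complex.mul_re, Complex.mul_im, Complex.I_re, Complex.I_im, Complex.conj_re, Complex.conj_im]
  ring

theorem imab (a b : ℂ) : |((starRingEnd ℂ) a * b).im| ≤ ‖a‖ * ‖b‖ := by
  refine (Complex.abs_im_le_norm _).trans ?_
  rw [norm_mul, Complex.norm_conj]

theorem io {Ω : Set ℂ} (hfin : volume Ω < ⊤) {f : ℂ → ℝ} (hf : Measurable f) {K : ℝ}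
    (hK : ∀ x, |f x| ≤ K) : IntegrableOn f Ω := by
  apply Measure.integrableOn_of_bounded hfin.ne hf.aestronglyMeasurable (M := K)
  exact Eventually.of_forall fun x => by rw [Real.norm_eq_abs]; exact hK x

theorem int3 {Ω : Set ℂ} {f1 f2 f3 : ℂ → ℝ} (i1 : IntegrableOn f1 Ω) (i2 : IntegrableOn f2 Ω)
    (i3 : IntegrableOn f3 Ω) (c : ℝ) : ∫ x in Ω, (f1 x + f2 x + c * f3 x) =
      (∫ x in Ω, f1 x) + (∫ x in Ω, f2 x) + c * ∫ x in Ω, f3 x := by
  have e1 := integral_add (i1.add i2) (i3.const_mul c)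
  have e2 := integral_add i1 i2
  simp only [Pi.add_apply] at e1 e2
  rw [e1, e2, integral_const_mul]

theorem sta (h1 : T_AJ) (h2 : T_AP) (h3 : T_AQ) (h4 : T_SEQ) (h5 : T_AB) : T_STA := by
  intro ι _ P δ G N hδ S k0
  obtain ⟨hfin, hΩ, C, hC, hb⟩ := h5 ι P δ G N hδ S
  obtain ⟨K, hK⟩ := S.bN
  have hAP := h2 N K S.mN hK
  have hAJ := h1 ι P δ G N hδ S
  have hAQ := h3 ι P δ G N hδ S
  -- measurability
  have ma : ∀ k, Measurable (ux N k) := fun k => (hb k).2.1.1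
  have mb : ∀ k, Measurable (uy N k) := fun k => (hb k).2.2.1.1
  have mg : ∀ k, Measurable (fun x => md (gN N x) k) := fun k => (hb k).2.2.2.1.1
  have mh : ∀ k, Measurable (fun x => md (hN N x) k) := fun k => (hb k).2.2.2.2.1.1
  have na : ∀ k x, ‖ux N k x‖ ≤ C := fun k => (hb k).2.1.2
  have nb : ∀ k x, ‖uy N k x‖ ≤ C := fun k => (hb k).2.2.1.2
  have ng : ∀ k x, ‖md (gN N x) k‖ ≤ C := fun k => (hb k).2.2.2.1.2
  have nh : ∀ k x, ‖md (hN N x) k‖ ≤ C := fun k => (hb k).2.2.2.2.1.2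
  -- integrability
  have bsq : ∀ {z : ℂ}, ‖z‖ ≤ C → |‖z‖ ^ 2| ≤ C ^ 2 := by
    intro z hz
    rw [abs_of_nonneg (by positivity)]
    exact pow_le_pow_left₀ (norm_nonneg _) hz 2
  have bim : ∀ {z w : ℂ}, ‖z‖ ≤ C → ‖w‖ ≤ C → |((starRingEnd ℂ) z * w).im| ≤ C * C := by
    intro z w hz hw
    exact (imab z w).trans (mul_le_mul hz hw (norm_nonneg _) hC)
  have mconj : ∀ {f g : ℂ → ℂ}, Measurable f → Measurable g →
      Measurable (fun x => ((starRingEnd ℂ) (f x) * g x).im) := by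
    intro f g hf hg
    exact Complex.measurable_im.comp ((Complex.continuous_conj.measurable.comp hf).mul hg)
  have iga : ∀ k, IntegrableOn (fun x => ‖ux N k x‖ ^ 2) P.Ω := fun k =>
    io hfin ((ma k).norm.pow_const 2) (fun x => bsq (na k x))
  have igb : ∀ k, IntegrableOn (fun x => ‖uy N k x‖ ^ 2) P.Ω := fun k =>
    io hfin ((mb k).norm.pow_const 2) (fun x => bsq (nb k x))
  have igg : ∀ k, IntegrableOn (fun x => ‖md (gN N x) k‖ ^ 2) P.Ω := fun k =>
    io hfin ((mg k).norm.pow_const 2) (fun x => bsq (ng k x))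
  have igh : ∀ k, IntegrableOn (fun x => ‖md (hN N x) k‖ ^ 2) P.Ω := fun k =>
    io hfin ((mh k).norm.pow_const 2) (fun x => bsq (nh k x))
  have iab : ∀ k, IntegrableOn (fun x => ((starRingEnd ℂ) (ux N k x) * uy N k x).im) P.Ω :=
    fun k => io hfin (mconj (ma k) (mb k)) (fun x => bim (na k x) (nb k x))
  have igh' : ∀ k, IntegrableOn
      (fun x => ((starRingEnd ℂ) (md (gN N x) k) * md (hN N x) k).im) P.Ω :=
    fun k => io hfin (mconj (mg k) (mh k)) (fun x => bim (ng k x) (nh k x))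
  have iprod : ∀ k, IntegrableOn (fun x => ‖md (gN N x) k‖ * ‖md (hN N x) k‖) P.Ω :=
    fun k => io hfin ((mg k).norm.mul (mh k).norm) (K := C * C) (fun x => by
      rw [abs_of_nonneg (by positivity)]
      exact mul_le_mul (ng k x) (nh k x) (norm_nonneg _) hC)
  -- the two sequences
  let A : ℤ → ℝ := fun k => ∫ x in P.Ω, ‖md (gN N x) k - Complex.I * md (hN N x) k‖ ^ 2
  let B : ℤ → ℝ := fun k => ∫ x in P.Ω, ‖md (gN N x) k + Complex.I * md (hN N x) k‖ ^ 2
  have hA1 : ∀ k, A (k + 1) = (∫ x in P.Ω, ‖ux N k x‖ ^ 2) + ∫ x in P.Ω, ‖uy N k x‖ ^ 2 := by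
    intro k
    have e : A (k + 1) = ∫ x in P.Ω, (‖ux N k x‖ ^ 2 + ‖uy N k x‖ ^ 2 +
        2 * ((starRingEnd ℂ) (ux N k x) * uy N k x).im) := by
      apply integral_congr_ae
      exact Eventually.of_forall fun x => by
        simp only []
        rw [← (hAP x k).2, nsub]
    rw [e, int3 (iga k) (igb k) (iab k) 2, hAJ k]
    ring
  have hB1 : ∀ k, B (k - 1) = (∫ x in P.Ω, ‖ux N k x‖ ^ 2) + ∫ x in P.Ω, ‖uy N k x‖ ^ 2 := by
    intro k
    have e : B (k - 1) = ∫ x in P.Ω, (‖ux N k x‖ ^ 2 + ‖uy N k x‖ ^ 2 +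
        (-2) * ((starRingEnd ℂ) (ux N k x) * uy N k x).im) := by
      apply integral_congr_ae
      exact Eventually.of_forall fun x => by
        simp only []
        rw [← (hAP x k).1, nadd]
        ring
    rw [e, int3 (iga k) (igb k) (iab k) (-2), hAJ k]
    ring
  have hAe : ∀ k, A k = (∫ x in P.Ω, ‖md (gN N x) k‖ ^ 2) + (∫ x in P.Ω, ‖md (hN N x) k‖ ^ 2) +
      2 * ∫ x in P.Ω, ((starRingEnd ℂ) (md (gN N x) k) * md (hN N x) k).im := by
    intro k
    have e : A k = ∫ x in P.Ω, (‖md (gN N x) k‖ ^ 2 + ‖md (hN N x) k‖ ^ 2 +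
        2 * ((starRingEnd ℂ) (md (gN N x) k) * md (hN N x) k).im) := by
      apply integral_congr_ae
      exact Eventually.of_forall fun x => nsub _ _
    rw [e, int3 (igg k) (igh k) (igh' k) 2]
  have hBe : ∀ k, B k = (∫ x in P.Ω, ‖md (gN N x) k‖ ^ 2) + (∫ x in P.Ω, ‖md (hN N x) k‖ ^ 2) -
      2 * ∫ x in P.Ω, ((starRingEnd ℂ) (md (gN N x) k) * md (hN N x) k).im := by
    intro k
    have e : B k = ∫ x in P.Ω, (‖md (gN N x) k‖ ^ 2 + ‖md (hN N x) k‖ ^ 2 +
        (-2) * ((starRingEnd ℂ) (md (gN N x) k) * md (hN N x) k).im) := by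
      apply integral_congr_ae
      exact Eventually.of_forall fun x => by
        simp only []
        rw [nadd]
        ring
    rw [e, int3 (igg k) (igh k) (igh' k) (-2)]
    ring
  have himb : ∀ k, |∫ x in P.Ω, ((starRingEnd ℂ) (md (gN N x) k) * md (hN N x) k).im| ≤
      ∫ x in P.Ω, ‖md (gN N x) k‖ * ‖md (hN N x) k‖ := by
    intro k
    rw [← Real.norm_eq_abs]
    refine (norm_integral_le_integral_norm _).trans ?_
    apply integral_mono (igh' k).norm (iprod k)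
    intro x
    simp only [Real.norm_eq_abs]
    exact imab _ _
  have hstep : ∀ k, |A (k + 1) - A (k - 1)| ≤
      4 * ∫ x in P.Ω, ‖md (gN N x) (k - 1)‖ * ‖md (hN N x) (k - 1)‖ := by
    intro k
    rw [hA1 k, ← hB1 k, hBe, hAe]
    have := abs_le.mp (himb (k - 1))
    rw [abs_le]
    constructor <;> linarith [this.1, this.2]
  have hA0 : ∀ k, 0 ≤ A k := fun k => integral_nonneg fun x => sq_nonneg _
  have hAle : ∀ k, A k ≤ 2 * (∫ x in P.Ω, ‖md (gN N x) k‖ ^ 2) +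
      2 * ∫ x in P.Ω, ‖md (hN N x) k‖ ^ 2 := by
    intro k
    rw [← integral_const_mul, ← integral_const_mul, ← integral_add ((igg k).const_mul 2)
      ((igh k).const_mul 2)]
    apply integral_mono_of_nonneg
    · exact Eventually.of_forall fun x => sq_nonneg _
    · exact ((igg k).const_mul 2).add ((igh k).const_mul 2)
    · exact Eventually.of_forall fun x => by
        simp only []
        rw [nsub]
        have h6 := imab (md (gN N x) k) (md (hN N x) k)
        have h7 := (abs_le.mp h6).2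
        nlinarith [sq_nonneg (‖md (gN N x) k‖ - ‖md (hN N x) k‖)]
  have hsum : ∀ (f : ℤ → ℝ) (c : ℝ), (∀ k, 0 ≤ f k) → (∀ s : Finset ℤ, ∑ k ∈ s, f k ≤ c) →
      Tendsto f cofinite (𝓝 0) := by
    intro f c hf hs
    exact (summable_of_sum_le hf hs).tendsto_cofinite_zero
  have hAt : Tendsto A cofinite (𝓝 0) := by
    have t1 := hsum (fun k => ∫ x in P.Ω, ‖md (gN N x) k‖ ^ 2) _
      (fun k => integral_nonneg fun x => sq_nonneg _) (fun s => (hAQ s).1)
    have t2 := hsum (fun k => ∫ x in P.Ω, ‖md (hN N x) k‖ ^ 2) _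
      (fun k => integral_nonneg fun x => sq_nonneg _) (fun s => (hAQ s).2.1)
    have t3 := (t1.const_mul 2).add (t2.const_mul 2)
    rw [mul_zero, add_zero] at t3
    exact squeeze_zero hA0 hAle t3
  have hM : ∀ s : Finset ℤ, ∑ k ∈ s, 4 * ∫ x in P.Ω, ‖md (gN N x) (k - 1)‖ *
      ‖md (hN N x) (k - 1)‖ ≤ 4 * √(nrm P.Ω (gN N)) * √(nrm P.Ω (hN N)) := by
    intro s
    have := (hAQ (s.map ((Equiv.subRight (1 : ℤ)).toEmbedding))).2.2
    rw [Finset.sum_map] at this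
    rw [← Finset.mul_sum, mul_assoc]
    exact mul_le_mul_of_nonneg_left this (by norm_num)
  have key := h4 A (fun k => 4 * ∫ x in P.Ω, ‖md (gN N x) (k - 1)‖ * ‖md (hN N x) (k - 1)‖)
    (4 * √(nrm P.Ω (gN N)) * √(nrm P.Ω (hN N))) hA0
    (fun k => mul_nonneg (by norm_num) (integral_nonneg fun x => by positivity)) hAt hstep hM
    (k0 + 1)
  rw [hA1 k0, ← integral_add (iga k0) (igb k0)] at key
  exact key

end Pool.Agent.H41.EG
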