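import Pool.Agent.H93.EG.Targets

namespace Pool.Agent.H41.EG

open MeasureTheory Set Metric Filter Topology Pool.Agent.H93.EG
open Pool.Agent.H93.BL hiding T_B1 T_B2 T_B3 T_SB T_SC
open Pool.Agent.H93.EN

theorem shiftb (f : ℂ → ℝ) (x : ℂ) (s : ℝ) : ∫ y in ball x s, f y = ∫ z in ball (0 : ℂ) s, f (x + z) := by
  have h := (measurePreserving_add_left (volume : Measure ℂ) x).setIntegral_preimage_emb
    (measurableEmbedding_addLeft x) f (ball x s)
  have e : (fun z => x + z) ⁻¹' ball x s = ball (0 : ℂ) s := by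
    ext z
    simp [mem_ball, dist_eq_norm]
  rw [e] at h
  exact h.symm

theorem shiftc (f : ℂ → ℂ) (x : ℂ) (s : ℝ) : ∫ y in ball x s, f y = ∫ z in ball (0 : ℂ) s, f (x + z) := by
  have h := (measurePreserving_add_left (volume : Measure ℂ) x).setIntegral_preimage_emb
    (measurableEmbedding_addLeft x) f (ball x s)
  have e : (fun z => x + z) ⁻¹' ball x s = ball (0 : ℂ) s := by
    ext z
    simp [mem_ball, dist_eq_norm]
  rw [e] at h
  exact h.symm

theorem lm1 : T_LM1 := by
  intro u x₀ R hR hu hi x hx x' hx' s hs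
  obtain ⟨hs0, hsR⟩ := hs
  obtain ⟨v, hv⟩ : ∃ v : ℂ, v = x - x' := ⟨_, rfl⟩
  have hmem : ∀ t ∈ Icc (0 : ℝ) 1, x' + (t : ℂ) * v ∈ ball x₀ R := by
    intro t ht
    have h1 := (convex_ball x₀ R) hx' hx (sub_nonneg.mpr ht.2) ht.1 (sub_add_cancel 1 t)
    have e : x' + (t : ℂ) * v = (1 - t) • x' + t • x := by
      rw [hv, Complex.real_smul, Complex.real_smul]
      push_cast
      ring
    rw [e]
    exact h1
  have hball : ∀ t ∈ Icc (0 : ℝ) 1, ∀ z ∈ closedBall (0 : ℂ) s,
      x' + (t : ℂ) * v + z ∈ ball x₀ (2 * R) := by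
    intro t ht z hz
    have h1 := hmem t ht
    rw [mem_ball, dist_eq_norm] at h1 ⊢
    rw [mem_closedBall, dist_zero_right] at hz
    have : x' + (t : ℂ) * v + z - x₀ = (x' + (t : ℂ) * v - x₀) + z := by ring
    rw [this]
    calc _ ≤ ‖x' + (t : ℂ) * v - x₀‖ + ‖z‖ := norm_add_le _ _
      _ < 2 * R := by linarith
  have hdiff : ∀ y ∈ ball x₀ (2 * R), DifferentiableAt ℝ u y := fun y hy =>
    (hu.differentiableOn (by norm_num)).differentiableAt (isOpen_ball.mem_nhds hy)
  have hcf : ContinuousOn (fderiv ℝ u) (ball x₀ (2 * R)) :=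
    hu.continuousOn_fderiv_of_isOpen isOpen_ball (by norm_num)
  have hcu : ContinuousOn u (ball x₀ (2 * R)) := hu.continuousOn
  have hxe : x' + ((1 : ℝ) : ℂ) * v = x := by rw [hv]; push_cast; ring
  have hx0e : x' + ((0 : ℝ) : ℂ) * v = x' := by simp
  -- pointwise estimate
  have hpt : ∀ z ∈ closedBall (0 : ℂ) s, ‖u (x + z) - u (x' + z)‖ ≤
      2 * R * ∫ t in Icc (0 : ℝ) 1, ‖fderiv ℝ u (x' + (t : ℂ) * v + z)‖ := by
    intro z hz
    have hd : ∀ t ∈ uIcc (0 : ℝ) 1, HasDerivAt (fun t : ℝ => u (x' + (t : ℂ) * v + z))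
        (fderiv ℝ u (x' + (t : ℂ) * v + z) v) t := by
      intro t ht
      rw [uIcc_of_le zero_le_one] at ht
      have h1 := (hdiff _ (hball t ht z hz)).hasFDerivAt
      have h2 : HasDerivAt (fun t : ℝ => x' + (t : ℂ) * v + z) v t := by
        have h3 : HasDerivAt (fun t : ℝ => (t : ℂ)) 1 t := Complex.ofRealCLM.hasDerivAt
        simpa using ((h3.mul_const v).const_add x').add_const z
      exact h1.comp_hasDerivAt t h2
    have hcont : ContinuousOn (fun t : ℝ => fderiv ℝ u (x' + (t : ℂ) * v + z)) (Icc 0 1) := by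
      apply hcf.comp
      · exact ((continuous_const.add (Complex.continuous_ofReal.mul continuous_const)).add
          continuous_const).continuousOn
      · intro t ht
        exact hball t ht z hz
    have hcont' : ContinuousOn (fun t : ℝ => fderiv ℝ u (x' + (t : ℂ) * v + z) v) (uIcc 0 1) := by
      rw [uIcc_of_le zero_le_one]
      exact hcont.clm_apply continuousOn_const
    have hftc := intervalIntegral.integral_eq_sub_of_hasDerivAt hd hcont'.intervalIntegrable
    rw [hxe, hx0e] at hftc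
    rw [← hftc]
    have hvR : ‖v‖ ≤ 2 * R := by
      rw [hv, ← dist_eq_norm]
      rw [mem_ball] at hx hx'
      calc dist x x' ≤ dist x x₀ + dist x' x₀ := dist_triangle_right _ _ _
        _ ≤ 2 * R := by linarith
    calc ‖∫ t in (0 : ℝ)..1, fderiv ℝ u (x' + (t : ℂ) * v + z) v‖
        ≤ ∫ t in (0 : ℝ)..1, ‖fderiv ℝ u (x' + (t : ℂ) * v + z) v‖ :=
          intervalIntegral.norm_integral_le_integral_norm zero_le_one
      _ ≤ ∫ t in (0 : ℝ)..1, 2 * R * ‖fderiv ℝ u (x' + (t : ℂ) * v + z)‖ := by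
          apply intervalIntegral.integral_mono_on zero_le_one hcont'.norm.intervalIntegrable
          · apply ContinuousOn.intervalIntegrable
            rw [uIcc_of_le zero_le_one]
            exact continuousOn_const.mul hcont.norm
          · intro t _
            refine (ContinuousLinearMap.le_opNorm _ _).trans ?_
            rw [mul_comm]
            exact mul_le_mul_of_nonneg_right hvR (norm_nonneg _)
      _ = 2 * R * ∫ t in Icc (0 : ℝ) 1, ‖fderiv ℝ u (x' + (t : ℂ) * v + z)‖ := by
          rw [intervalIntegral.integral_const_mul, intervalIntegral.integral_of_le zero_le_one,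
            integral_Icc_eq_integral_Ioc]
  -- integrability of `u`
  have hiu : ∀ t ∈ Icc (0 : ℝ) 1, IntegrableOn (fun z => u (x' + (t : ℂ) * v + z))
      (ball (0 : ℂ) s) := by
    intro t ht
    apply IntegrableOn.mono_set _ ball_subset_closedBall
    apply ContinuousOn.integrableOn_compact (isCompact_closedBall _ _)
    exact hcu.comp (continuous_const.add continuous_id).continuousOn (fun z hz => hball t ht z hz)
  have hiu1 := hiu 1 ⟨zero_le_one, le_rfl⟩
  have hiu0 := hiu 0 ⟨le_rfl, zero_le_one⟩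
  rw [hxe] at hiu1
  rw [hx0e] at hiu0
  -- the double integral
  have hcd : ContinuousOn (fun p : ℂ × ℝ => ‖fderiv ℝ u (x' + (p.2 : ℂ) * v + p.1)‖)
      (closedBall (0 : ℂ) s ×ˢ Icc (0 : ℝ) 1) := by
    apply ContinuousOn.norm
    apply hcf.comp
    · apply Continuous.continuousOn
      exact (continuous_const.add ((Complex.continuous_ofReal.comp continuous_snd).mul
        continuous_const)).add continuous_fst
    · intro p hp
      exact hball p.2 hp.2 p.1 hp.1
  have hint : Integrable (fun p : ℂ × ℝ => ‖fderiv ℝ u (x' + (p.2 : ℂ) * v + p.1)‖)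
      ((volume.restrict (ball (0 : ℂ) s)).prod (volume.restrict (Icc (0 : ℝ) 1))) := by
    rw [Measure.prod_restrict]
    have h1 : IntegrableOn (fun p : ℂ × ℝ => ‖fderiv ℝ u (x' + (p.2 : ℂ) * v + p.1)‖)
        (closedBall (0 : ℂ) s ×ˢ Icc (0 : ℝ) 1) :=
      hcd.integrableOn_compact ((isCompact_closedBall _ _).prod isCompact_Icc)
    exact h1.mono_set (prod_mono ball_subset_closedBall le_rfl)
  have hswap := integral_integral_swap
    (f := fun (z : ℂ) (t : ℝ) => ‖fderiv ℝ u (x' + (t : ℂ) * v + z)‖) hint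
  have hin : ∀ t ∈ Icc (0 : ℝ) 1, ∫ z in ball (0 : ℂ) s, ‖fderiv ℝ u (x' + (t : ℂ) * v + z)‖ ≤
      ∫ y in ball x₀ (2 * R), ‖fderiv ℝ u y‖ := by
    intro t ht
    rw [← shiftb (fun y => ‖fderiv ℝ u y‖) (x' + (t : ℂ) * v) s]
    apply setIntegral_mono_set hi
    · exact Eventually.of_forall fun y => norm_nonneg _
    · apply HasSubset.Subset.eventuallyLE
      intro y hy
      have := hball t ht (y - (x' + (t : ℂ) * v)) (by
        rw [mem_closedBall, dist_zero_right, ← dist_eq_norm]
        exact (mem_ball.mp hy).le)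
      rwa [add_sub_cancel] at this
  rw [shiftc u x s, shiftc u x' s, ← integral_sub hiu1 hiu0]
  calc ‖∫ z in ball (0 : ℂ) s, (u (x + z) - u (x' + z))‖
      ≤ ∫ z in ball (0 : ℂ) s, ‖u (x + z) - u (x' + z)‖ := norm_integral_le_integral_norm _
    _ ≤ ∫ z in ball (0 : ℂ) s, 2 * R *
          ∫ t in Icc (0 : ℝ) 1, ‖fderiv ℝ u (x' + (t : ℂ) * v + z)‖ := by
        apply setIntegral_mono_on (hiu1.sub hiu0).norm
        · exact (hint.integral_prod_left).const_mul _
        · exact measurableSet_ball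
        · intro z hz
          exact hpt z (ball_subset_closedBall hz)
    _ = 2 * R * ∫ z in ball (0 : ℂ) s,
          ∫ t in Icc (0 : ℝ) 1, ‖fderiv ℝ u (x' + (t : ℂ) * v + z)‖ := integral_const_mul _ _
    _ = 2 * R * ∫ t in Icc (0 : ℝ) 1,
          ∫ z in ball (0 : ℂ) s, ‖fderiv ℝ u (x' + (t : ℂ) * v + z)‖ := by rw [hswap]
    _ ≤ 2 * R * ∫ t in Icc (0 : ℝ) 1, ∫ y in ball x₀ (2 * R), ‖fderiv ℝ u y‖ := by
        apply mul_le_mul_of_nonneg_left _ (by positivity)
        apply setIntegral_mono_on hint.integral_prod_right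
        · exact integrable_const _
        · exact measurableSet_Icc
        · exact hin
    _ = 2 * R * ∫ y in ball x₀ (2 * R), ‖fderiv ℝ u y‖ := by
        rw [setIntegral_const]
        simp

end Pool.Agent.H41.EG
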